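import Mathlib
import Pool.Agent.Q147.ProdApply

/-!
# MP_34945e_gt : products of bo-bounded balleans are bo-bounded
-/

namespace Pool.Agent.Results.MP_34945e_gt.BoBoundedProducts

open Set Pool.Agent.Q147.ProdCore Pool.Agent.Q147.ProdApply

universe u v

/-- A ballean: a family of entourages containing the diagonal such that `E ∘ F⁻¹` lies in some
entourage and every pair of points lies in some entourage. -/
structure Ballean (X : Type u) where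
  /-- the entourages -/
  ent : Set (Set (X × X))
  /-- every entourage contains the diagonal -/
  diag : ∀ E ∈ ent, ∀ x, (x, x) ∈ E
  /-- `E ∘ F⁻¹` is contained in an entourage -/
  compInv : ∀ E ∈ ent, ∀ F ∈ ent, ∃ D ∈ ent,
    {p : X × X | ∃ y, (p.1, y) ∈ E ∧ (p.2, y) ∈ F} ⊆ D
  /-- the union of the entourages is `X × X` -/
  cover : ⋃₀ ent = univ

/-- `A` is bounded if `A ⊆ E[x]` for some entourage `E` and some point `x`. -/
def Ballean.Bounded {X : Type u} (c : Ballean X) (A : Set X) : Prop :=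
  ∃ E ∈ c.ent, ∃ x : X, A ⊆ {y | (x, y) ∈ E}

section

variable {X : Type u} (c : Ballean X)

theorem conn (x y : X) : ∃ E ∈ c.ent, (x, y) ∈ E := by
  have h : (x, y) ∈ ⋃₀ c.ent := by rw [c.cover]; trivial
  exact h

theorem exists_inv {E : Set (X × X)} (hE : E ∈ c.ent) :
    ∃ D ∈ c.ent, ∀ x y, (x, y) ∈ E → (y, x) ∈ D := by
  obtain ⟨D, hD, h⟩ := c.compInv E hE E hE
  exact ⟨D, hD, fun x y hxy => h ⟨y, c.diag E hE y, hxy⟩⟩

theorem exists_comp {E F : Set (X × X)} (hE : E ∈ c.ent) (hF : F ∈ c.ent) :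
    ∃ D ∈ c.ent, ∀ x y z, (x, y) ∈ E → (y, z) ∈ F → (x, z) ∈ D := by
  obtain ⟨F', hF', h'⟩ := exists_inv c hF
  obtain ⟨D, hD, h⟩ := c.compInv E hE F' hF'
  exact ⟨D, hD, fun x y z hxy hyz => h ⟨y, hxy, h' y z hyz⟩⟩

theorem exists_union {E F : Set (X × X)} (hE : E ∈ c.ent) (hF : F ∈ c.ent) :
    ∃ D ∈ c.ent, E ⊆ D ∧ F ⊆ D := by
  obtain ⟨D, hD, h⟩ := exists_comp c hE hF
  refine ⟨D, hD, ?_, ?_⟩
  · rintro ⟨x, y⟩ hxy
    exact h x y y hxy (c.diag F hF y)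
  · rintro ⟨x, y⟩ hxy
    exact h x x y (c.diag E hE x) hxy

theorem bounded_sub {B B' : Set X} (hB : c.Bounded B) (h : B' ⊆ B) : c.Bounded B' := by
  obtain ⟨E, hE, x, hx⟩ := hB
  exact ⟨E, hE, x, h.trans hx⟩

theorem bounded_union {B B' : Set X} (hB : c.Bounded B) (hB' : c.Bounded B') :
    c.Bounded (B ∪ B') := by
  obtain ⟨E, hE, x, hx⟩ := hB
  obtain ⟨E', hE', x', hx'⟩ := hB'
  obtain ⟨D, hD, hxx⟩ := conn c x x'
  obtain ⟨D', hD', h'⟩ := exists_comp c hD hE'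
  obtain ⟨D'', hD'', h1, h2⟩ := exists_union c hE hD'
  refine ⟨D'', hD'', x, ?_⟩
  rintro y (hy | hy)
  · exact h1 (hx hy)
  · exact h2 (h' x x' y hxx (hx' hy))

theorem bounded_base {B : Set X} (hB : c.Bounded B) :
    ∃ E ∈ c.ent, ∃ x₀, (x₀, x₀) ∈ E ∧ ∀ x ∈ B, (x₀, x) ∈ E := by
  obtain ⟨E, hE, x, hx⟩ := hB
  exact ⟨E, hE, x, c.diag E hE x, fun y hy => hx hy⟩

end

/-- The product ballean: its entourages are the sets
`E × F = {((x, y), (x', y')) | (x, x') ∈ E, (y, y') ∈ F}`. -/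
def Ballean.prod {X : Type u} {Y : Type v} (c : Ballean X) (d : Ballean Y) : Ballean (X × Y) where
  ent := {W | ∃ E ∈ c.ent, ∃ F ∈ d.ent,
    W = {p : (X × Y) × (X × Y) | (p.1.1, p.2.1) ∈ E ∧ (p.1.2, p.2.2) ∈ F}}
  diag := by
    rintro W ⟨E, hE, F, hF, rfl⟩ ⟨x, y⟩
    exact ⟨c.diag E hE x, d.diag F hF y⟩
  compInv := by
    rintro W ⟨E, hE, F, hF, rfl⟩ W' ⟨E', hE', F', hF', rfl⟩
    obtain ⟨D, hD, h⟩ := c.compInv E hE E' hE'
    obtain ⟨D', hD', h'⟩ := d.compInv F hF F' hF'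
    refine ⟨_, ⟨D, hD, D', hD', rfl⟩, ?_⟩
    rintro ⟨⟨x, y⟩, ⟨x', y'⟩⟩ ⟨⟨a, b⟩, h1, h2⟩
    exact ⟨h ⟨a, h1.1, h2.1⟩, h' ⟨b, h1.2, h2.2⟩⟩
  cover := by
    refine eq_univ_of_forall ?_
    rintro ⟨⟨x, y⟩, ⟨x', y'⟩⟩
    obtain ⟨E, hE, h1⟩ := conn c x x'
    obtain ⟨F, hF, h2⟩ := conn d y y'
    exact ⟨_, ⟨E, hE, F, hF, rfl⟩, h1, h2⟩

/-- `f` is boundedly oscillating: there is `C > 0` such that for every entourage `E` there is a
bounded set `B` such that the diameter of `f (E[x])` is `< C` for every `x ∉ B`; here the diameter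
of a set `S` of reals is `< C` if and only if there is `C' < C` with `|s - t| ≤ C'` for all `s, t`
in `S`. -/
def BoundedlyOscillating {X : Type u} (c : Ballean X) (f : X → ℝ) : Prop :=
  ∃ C : ℝ, 0 < C ∧ ∀ E ∈ c.ent, ∃ B, c.Bounded B ∧
    ∀ x, x ∉ B → ∃ C' < C, ∀ a b, (x, a) ∈ E → (x, b) ∈ E → |f a - f b| ≤ C'

/-- `X` is bo-bounded: every boundedly oscillating function is bounded off a bounded set. -/
def BoBounded {X : Type u} (c : Ballean X) : Prop :=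
  ∀ f : X → ℝ, BoundedlyOscillating c f → ∃ B, c.Bounded B ∧ ∃ K : ℝ, ∀ x, x ∉ B → |f x| ≤ K

theorem exists_ent {X : Type u} {c : Ballean X} (hc : BoBounded c) : ∃ E, E ∈ c.ent := by
  by_contra h
  rw [not_exists] at h
  obtain ⟨B, ⟨E, hE, -⟩, -⟩ := hc (fun _ => 0) ⟨1, one_pos, fun E hE => absurd hE (h E)⟩
  exact h E hE

theorem bounded_prod {X : Type u} {Y : Type v} {c : Ballean X} {d : Ballean Y} {W : Set (X × Y)}
    (hW : (c.prod d).Bounded W) : ∃ B C, c.Bounded B ∧ d.Bounded C ∧ W ⊆ B ×ˢ C := by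
  obtain ⟨V, ⟨E, hE, F, hF, rfl⟩, ⟨x, y⟩, h⟩ := hW
  refine ⟨{x' | (x, x') ∈ E}, {y' | (y, y') ∈ F}, ⟨E, hE, x, subset_rfl⟩, ⟨F, hF, y, subset_rfl⟩,
    ?_⟩
  rintro ⟨x', y'⟩ hp
  exact h hp

theorem prod_bounded {X : Type u} {Y : Type v} {c : Ballean X} {d : Ballean Y} {B : Set X}
    {C : Set Y} (hB : c.Bounded B) (hC : d.Bounded C) : (c.prod d).Bounded (B ×ˢ C) := by
  obtain ⟨E, hE, x, hx⟩ := hB
  obtain ⟨F, hF, y, hy⟩ := hC
  refine ⟨_, ⟨E, hE, F, hF, rfl⟩, (x, y), ?_⟩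
  rintro ⟨x', y'⟩ ⟨h1, h2⟩
  exact ⟨hx h1, hy h2⟩

/-- The product of two bo-bounded balleans is bo-bounded. -/
theorem result (X : Type u) (Y : Type v) (c : Ballean X) (d : Ballean Y) (hc : BoBounded c)
    (hd : BoBounded d) : BoBounded (c.prod d) := by
  rintro f ⟨C₀, hC₀, hf⟩
  obtain ⟨E₀, hE₀⟩ := exists_ent hc
  obtain ⟨F₀, hF₀⟩ := exists_ent hd
  obtain ⟨B, hB, C, hC, K, hK⟩ := core_apply c.ent d.ent {B | c.Bounded B} {C | d.Bounded C} f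
    ⟨E₀, hE₀, c.diag E₀ hE₀⟩ ⟨F₀, hF₀, d.diag F₀ hF₀⟩
    (fun B hB B' h => bounded_sub c hB h) (fun B hB B' hB' => bounded_union c hB hB')
    (fun B hB B' h => bounded_sub d hB h) (fun B hB B' hB' => bounded_union d hB hB')
    (fun B hB => bounded_base c hB) (fun C hC => bounded_base d hC)
    (by
      intro E hE F hF
      obtain ⟨W, hW, h⟩ := hf _ ⟨E, hE, F, hF, rfl⟩
      obtain ⟨B, C, hB, hC, hWBC⟩ := bounded_prod hW
      refine ⟨B, hB, C, hC, C₀, ?_⟩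
      intro x y hxy a b s t h1 h2 h3 h4
      obtain ⟨C', hC', h5⟩ := h (x, y) (fun h => hxy (hWBC h))
      exact (h5 (a, s) (b, t) ⟨h1, h3⟩ ⟨h2, h4⟩).trans hC'.le)
    (by
      intro g hg
      apply hc
      refine ⟨C₀ + 1, by linarith, ?_⟩
      intro E hE
      obtain ⟨W, hW, h⟩ := hf _ ⟨E, hE, F₀, hF₀, rfl⟩
      obtain ⟨B, C, hB, hC, hWBC⟩ := bounded_prod hW
      refine ⟨B, hB, ?_⟩
      intro x hx
      refine ⟨C₀, by linarith, ?_⟩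
      intro a b ha hb
      refine hg a b _ hC₀.le fun y => ?_
      obtain ⟨C', hC', h5⟩ := h (x, y) (fun h => hx (hWBC h).1)
      exact (h5 (a, y) (b, y) ⟨ha, d.diag F₀ hF₀ y⟩ ⟨hb, d.diag F₀ hF₀ y⟩).trans hC'.le)
    (by
      intro g hg
      apply hd
      refine ⟨C₀ + 1, by linarith, ?_⟩
      intro F hF
      obtain ⟨W, hW, h⟩ := hf _ ⟨E₀, hE₀, F, hF, rfl⟩
      obtain ⟨B, C, hB, hC, hWBC⟩ := bounded_prod hW
      refine ⟨C, hC, ?_⟩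
      intro y hy
      refine ⟨C₀, by linarith, ?_⟩
      intro a b ha hb
      refine hg a b _ hC₀.le fun x => ?_
      obtain ⟨C', hC', h5⟩ := h (x, y) (fun h => hy (hWBC h).2)
      exact (h5 (x, a) (x, b) ⟨c.diag E₀ hE₀ x, ha⟩ ⟨c.diag E₀ hE₀ x, hb⟩).trans hC'.le)
  refine ⟨B ×ˢ C, prod_bounded hB hC, K, ?_⟩
  rintro ⟨x, y⟩ hxy
  exact hK x y fun h => hxy h

end Pool.Agent.Results.MP_34945e_gt.BoBoundedProducts
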